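import Pool.Graph.R_pool_sql_team_seeded_63374d34.N973.P21.DIAG
import Pool.Graph.R_pool_sql_team_seeded_63374d34.N973.P21.DIAG3
import Pool.Graph.R_pool_sql_team_seeded_63374d34.N973.P21.REL
import Pool.Graph.R_pool_sql_team_seeded_63374d34.N833.P21.CW
import Pool.Graph.R_pool_sql_team_seeded_63374d34.N833.P21.CB
import Pool.Graph.R_pool_sql_team_seeded_63374d34.N218.P21.Fin
import Pool.Graph.R_pool_sql_team_seeded_63374d34.N693.P21.K4
import Pool.Graph.R_pool_sql_team_seeded_63374d34.N693.P21.R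
import Pool.Graph.R_pool_sql_team_seeded_63374d34.N693.P21.R3b
import Pool.Graph.R_pool_sql_team_seeded_63374d34.N693.P21.Fin
import Pool.Graph.R_pool_sql_team_seeded_63374d34.N712.P21.HE
import Pool.Graph.R_pool_sql_team_seeded_63374d34.N878.PC21.PE
import Pool.Graph.R_pool_sql_team_seeded_63374d34.N878.PC21.PC3
import Pool.Graph.R_pool_sql_team_seeded_63374d34.N402.P15.C1B
import Pool.Graph.R_pool_sql_team_seeded_63374d34.N402.P15.C1BE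
import Pool.Graph.R_pool_sql_team_seeded_63374d34.N975.S21.Sum
import Pool.Graph.R_pool_sql_team_seeded_63374d34.N402.MF21.Asm

/-!
# The unconditional statements of project P21 of the library (assembly)
-/

set_option autoImplicit false

namespace Pool.Agent.H743.P21

open Pool.Agent.N877.P21

theorem f_PC : S_PC := Pool.Agent.N878.PC21.t_PC
theorem f_PC3 : S_PC3 := Pool.Agent.N878.PC21.t_PC3
theorem f_PCE : S_PCE := Pool.Agent.N878.PC21.t_PCE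
theorem f_PC3E : S_PC3E := Pool.Agent.N878.PC21.t_PC3E
theorem f_PC3' : Pool.Agent.N218.P21.S_PC3' := Pool.Agent.N878.PC21.t_PC3w
theorem f_CP7 : S_CP7 := Pool.Agent.N973.P21.t_CP7 f_PC

theorem f_DIAG : S_DIAG := Pool.Agent.N973.P21.t_DIAG Pool.Agent.N402.P15.t_C1B
  Pool.Agent.N833.P21.t_C2A Pool.Agent.N833.P21.t_C2B f_CP7 Pool.Agent.N712.P21.t_HE
theorem f_DIAGE : S_DIAGE := Pool.Agent.N973.P21.t_DIAGE Pool.Agent.N402.P15.t_C1BE
  Pool.Agent.N833.P21.t_C2E (Pool.Agent.N973.P21.t_CP7E f_PCE) Pool.Agent.N712.P21.t_HEE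
theorem f_DIAG7 : S_DIAG7 := Pool.Agent.N973.P21.t_DIAG7 Pool.Agent.N402.P15.t_C1B
  Pool.Agent.N833.P21.t_C27A Pool.Agent.N833.P21.t_C27B f_PC Pool.Agent.N712.P21.t_HE7
theorem f_DIAG7E : S_DIAG7E := Pool.Agent.N973.P21.t_DIAG7E Pool.Agent.N402.P15.t_C1BE
  Pool.Agent.N833.P21.t_C27E f_PCE Pool.Agent.N712.P21.t_HE7E
theorem f_DIAG21 : S_DIAG21 := Pool.Agent.N973.P21.t_DIAG21 Pool.Agent.N402.P15.t_C1B
  Pool.Agent.N833.P21.t_C23A Pool.Agent.N833.P21.t_C23B f_PC3 Pool.Agent.N712.P21.t_HE7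
theorem f_DIAG21E : S_DIAG21E := Pool.Agent.N973.P21.t_DIAG21E Pool.Agent.N402.P15.t_C1BE
  Pool.Agent.N833.P21.t_C23E f_PC3E Pool.Agent.N712.P21.t_HE7E
theorem f_DIAG3 : S_DIAG3 := Pool.Agent.N973.P21.t_DIAG3 Pool.Agent.N402.P15.t_C1B
  Pool.Agent.N833.P21.t_C23A Pool.Agent.N833.P21.t_C23B f_PC3 Pool.Agent.N712.P21.t_HE
theorem f_DIAG3E : S_DIAG3E := Pool.Agent.N973.P21.t_DIAG3E Pool.Agent.N402.P15.t_C1BE
  Pool.Agent.N833.P21.t_C23E f_PC3E Pool.Agent.N712.P21.t_HEE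

theorem f_PAR : S_PAR := Pool.Agent.N218.P21.t_PAR f_PC f_PC3' Pool.Agent.N973.P21.t_REL55 f_CP7
  Pool.Agent.N693.P21.R.t_R Pool.Agent.N693.P21.t_RE Pool.Agent.N693.P21.R3.t_R3
  Pool.Agent.N693.P21.K.t_R3E
theorem f_PARE : S_PARE := Pool.Agent.N218.P21.t_PARE f_PC f_PC3' Pool.Agent.N973.P21.t_REL55 f_CP7
  Pool.Agent.N693.P21.R.t_R Pool.Agent.N693.P21.t_RE Pool.Agent.N693.P21.R3.t_R3
  Pool.Agent.N693.P21.K.t_R3E
theorem f_PARA3 : S_PARA3 := Pool.Agent.N218.P21.t_PARA3 f_PC f_PC3' Pool.Agent.N973.P21.t_REL55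
  f_CP7 Pool.Agent.N693.P21.R.t_R Pool.Agent.N693.P21.t_RE Pool.Agent.N693.P21.R3.t_R3
  Pool.Agent.N693.P21.K.t_R3E
theorem f_PARA3E : S_PARA3E := Pool.Agent.N218.P21.t_PARA3E f_PC f_PC3' Pool.Agent.N973.P21.t_REL55
  f_CP7 Pool.Agent.N693.P21.R.t_R Pool.Agent.N693.P21.t_RE Pool.Agent.N693.P21.R3.t_R3
  Pool.Agent.N693.P21.K.t_R3E


end Pool.Agent.H743.P21
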